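import Pool.Agent.Work.MP_4c4335_nt_helper98.Interface

/-!
# Block CR: crossing a window
-/

namespace Pool.Agent.Work.MP_4c4335_nt_helper47

open Finset Polynomial Filter Real MeasureTheory
open Pool.Agent.Work.MP_4c4335_nt Pool.Agent.Work.MP_4c4335_nt_helper98

/-- Markov's inequality at the right endpoint of `[-1, 1]`, with constant one. -/
lemma markov_one_aux {n : ℕ} {P : ℝ[X]} (hdeg : P.degree ≤ n)
    (hP : ∀ x ∈ Set.Icc (-1:ℝ) 1, |P.eval x| ≤ 1) : (derivative P).eval 1 ≤ (n:ℝ) ^ 2 := by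
  have h := Polynomial.Chebyshev.eval_iterate_derivative_le_of_forall_abs_le_one (k := 1)
    (le_refl (1:ℝ)) hdeg hP
  simp only [Function.iterate_one] at h
  rw [Polynomial.Chebyshev.derivative_T_eval_one] at h
  exact_mod_cast h

lemma markov_one {n : ℕ} {P : ℝ[X]} {M : ℝ} (hM : 0 < M) (hdeg : P.degree ≤ n)
    (hP : ∀ x ∈ Set.Icc (-1:ℝ) 1, |P.eval x| ≤ M) :
    |(derivative P).eval 1| ≤ (n:ℝ) ^ 2 * M := by
  have key : ∀ c : ℝ, |c| = M⁻¹ → c * (derivative P).eval 1 ≤ (n:ℝ) ^ 2 := by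
    intro c hc
    have hc0 : c ≠ 0 := by
      intro h
      rw [h, abs_zero] at hc
      have : 0 < M⁻¹ := by positivity
      linarith
    have h1 : (C c * P).degree ≤ n := by rw [degree_C_mul hc0]; exact hdeg
    have h2 : ∀ x ∈ Set.Icc (-1:ℝ) 1, |(C c * P).eval x| ≤ 1 := by
      intro x hx
      rw [eval_mul, eval_C, abs_mul, hc]
      have := hP x hx
      rw [inv_mul_le_iff₀ hM, mul_one]; exact this
    have h3 := markov_one_aux h1 h2
    rwa [derivative_C_mul, eval_mul, eval_C] at h3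
  have h1 := key M⁻¹ (abs_of_pos (by positivity))
  have h2 := key (-M⁻¹) (by rw [abs_neg]; exact abs_of_pos (by positivity))
  rw [abs_le]
  constructor
  · have : M⁻¹ * -(derivative P).eval 1 ≤ (n:ℝ) ^ 2 := by linarith
    rw [inv_mul_le_iff₀ hM] at this
    linarith
  · rw [inv_mul_le_iff₀ hM] at h1
    linarith

/-- Markov's inequality at an endpoint of a segment. -/
lemma markov_end {n : ℕ} {P : ℝ[X]} {M a b : ℝ} (hM : 0 < M) (hab : a ≠ b) (hdeg : P.degree ≤ n)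
    (hP : ∀ x ∈ Set.uIcc a b, |P.eval x| ≤ M) :
    |(derivative P).eval b| ≤ 2 * (n:ℝ) ^ 2 * M / |b - a| := by
  set Q : ℝ[X] := P.comp (C ((b - a) / 2) * X + C ((a + b) / 2)) with hQ
  have hba : b - a ≠ 0 := sub_ne_zero.mpr (Ne.symm hab)
  have hQd : Q.degree ≤ n := by
    rw [hQ]
    have h1 : P.natDegree ≤ n := natDegree_le_of_degree_le hdeg
    have h2 : (C ((b - a) / 2) * X + C ((a + b) / 2) : ℝ[X]).natDegree ≤ 1 :=
      natDegree_linear_le
    refine (degree_le_natDegree).trans ?_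
    rw [natDegree_comp]
    have : P.natDegree * (C ((b - a) / 2) * X + C ((a + b) / 2) : ℝ[X]).natDegree ≤ n :=
      (Nat.mul_le_mul h1 h2).trans (by omega)
    exact_mod_cast this
  have hQe : ∀ x, Q.eval x = P.eval ((b - a) / 2 * x + (a + b) / 2) := by
    intro x
    rw [hQ, eval_comp]
    simp
  have h1 := markov_one (n := n) (P := Q) hM hQd (by
    intro x hx
    rw [hQe]
    apply hP
    rw [Set.mem_uIcc]
    rcases le_total a b with h | h
    · left
      constructor <;> nlinarith [hx.1, hx.2]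
    · right
      constructor <;> nlinarith [hx.1, hx.2])
  have h2 : (derivative Q).eval 1 = (b - a) / 2 * (derivative P).eval b := by
    rw [hQ, derivative_comp, eval_mul, eval_comp]
    simp
    left
    congr 1
    ring
  rw [h2, abs_mul, abs_div, abs_two] at h1
  rw [le_div_iff₀ (abs_pos.mpr hba)]
  nlinarith [h1]

lemma markov_mem {n : ℕ} {P : ℝ[X]} {M L x : ℝ} (hM : 0 < M) (hL : 0 < L)
    (hx : x ∈ Set.Icc 0 L) (hdeg : P.degree ≤ n)
    (hP : ∀ y ∈ Set.Icc 0 L, |P.eval y| ≤ M) :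
    |(derivative P).eval x| ≤ 4 * (n:ℝ) ^ 2 * M / L := by
  have h0 : 0 ≤ 2 * (n:ℝ) ^ 2 * M := by positivity
  rcases le_total (L / 2) x with h | h
  · have h1 := markov_end (n := n) (P := P) (a := 0) (b := x) hM (by intro h'; linarith) hdeg
      (by
        intro y hy
        rw [Set.uIcc_of_le hx.1] at hy
        exact hP y ⟨hy.1, hy.2.trans hx.2⟩)
    refine h1.trans ?_
    have h2 : |x - 0| = x := by rw [sub_zero]; exact abs_of_nonneg hx.1
    rw [h2, div_le_div_iff₀ (by linarith) hL]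
    nlinarith
  · have h1 := markov_end (n := n) (P := P) (a := L) (b := x) hM (by intro h'; linarith) hdeg
      (by
        intro y hy
        rw [Set.uIcc_comm, Set.uIcc_of_le hx.2] at hy
        exact hP y ⟨hx.1.trans hy.1, hy.2⟩)
    refine h1.trans ?_
    have h2 : |x - L| = L - x := by rw [abs_sub_comm]; exact abs_of_nonneg (by linarith [hx.2])
    rw [h2, div_le_div_iff₀ (by linarith) hL]
    nlinarith

/-- the variation of a bounded polynomial -/
lemma markov_diff {n : ℕ} {P : ℝ[X]} {M L x y : ℝ} (hM : 0 < M) (hL : 0 < L)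
    (hx : x ∈ Set.Icc 0 L) (hy : y ∈ Set.Icc 0 L) (hdeg : P.degree ≤ n)
    (hP : ∀ y ∈ Set.Icc 0 L, |P.eval y| ≤ M) :
    |P.eval y - P.eval x| ≤ 4 * (n:ℝ) ^ 2 * M / L * |y - x| := by
  have := Convex.norm_image_sub_le_of_norm_deriv_le (f := fun z => P.eval z) (s := Set.Icc 0 L)
    (C := 4 * (n:ℝ) ^ 2 * M / L) (x := x) (y := y) (fun z _ => P.differentiableAt)
    (by
      intro z hz
      rw [Polynomial.deriv]
      exact markov_mem hM hL hz hdeg hP) (convex_Icc 0 L) hx hy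
  simpa using this

/-- the Taylor polynomial in the angle of the real part of `ω P(e^{i(θ + σ x)})` -/
noncomputable def Rpol (P : ℤ[X]) (θ σ : ℝ) (ω : ℂ) (N D : ℕ) : ℝ[X] :=
  ∑ m ∈ range D, C ((ω * ∑ n ∈ range N, (P.coeff n : ℂ) * zpt θ ^ n *
    (((n : ℂ) * σ * Complex.I) ^ m / m.factorial)).re) * X ^ m

lemma Rpol_degree (P : ℤ[X]) (θ σ : ℝ) (ω : ℂ) (N D : ℕ) : (Rpol P θ σ ω N D).degree ≤ D := by
  unfold Rpol
  refine (degree_sum_le _ _).trans ?_
  apply Finset.sup_le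
  intro m hm
  refine (degree_C_mul_X_pow_le m _).trans ?_
  exact_mod_cast (mem_range.mp hm).le

lemma Rpol_eval (P : ℤ[X]) (θ σ : ℝ) (ω : ℂ) (N D : ℕ) (x : ℝ) :
    (Rpol P θ σ ω N D).eval x = (ω * ∑ n ∈ range N, (P.coeff n : ℂ) * zpt θ ^ n *
      ∑ m ∈ range D, ((n : ℂ) * σ * x * Complex.I) ^ m / m.factorial).re := by
  unfold Rpol
  rw [eval_finsetSum]
  simp only [eval_mul, eval_C, eval_pow, eval_X]
  have h1 : ∀ m : ℕ, (ω * ∑ n ∈ range N, (P.coeff n : ℂ) * zpt θ ^ n *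
      (((n : ℂ) * σ * Complex.I) ^ m / m.factorial)).re * x ^ m =
      (ω * ∑ n ∈ range N, (P.coeff n : ℂ) * zpt θ ^ n *
        (((n : ℂ) * σ * x * Complex.I) ^ m / m.factorial)).re := by
    intro m
    have h2 : (ω * ∑ n ∈ range N, (P.coeff n : ℂ) * zpt θ ^ n *
        (((n : ℂ) * σ * x * Complex.I) ^ m / m.factorial)) =
        (ω * ∑ n ∈ range N, (P.coeff n : ℂ) * zpt θ ^ n *
          (((n : ℂ) * σ * Complex.I) ^ m / m.factorial)) * ((x ^ m : ℝ) : ℂ) := by
      rw [mul_assoc, Finset.sum_mul]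
      congr 1
      apply Finset.sum_congr rfl
      intro n _
      push_cast
      ring
    rw [h2, Complex.re_mul_ofReal]
  simp_rw [h1]
  rw [← Complex.re_sum, ← Finset.mul_sum, Finset.sum_comm]
  simp_rw [Finset.mul_sum]

lemma ev_eq_sum {P : ℤ[X]} {N : ℕ} (hdeg : P.natDegree < N) (θ σ x : ℝ) :
    ev P (zpt (θ + σ * x)) = ∑ n ∈ range N, (P.coeff n : ℂ) * zpt θ ^ n *
      Complex.exp ((n : ℂ) * σ * x * Complex.I) := by
  unfold ev
  rw [aeval_eq_sum_range' hdeg]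
  apply Finset.sum_congr rfl
  intro n _
  rw [zsmul_eq_mul, mul_assoc]
  congr 1
  unfold zpt
  rw [← Complex.exp_nat_mul, ← Complex.exp_nat_mul, ← Complex.exp_add]
  congr 1
  push_cast
  ring

lemma approx {P : ℤ[X]} {N B : ℕ} (hdeg : P.natDegree < N) (hc : ∀ i, |P.coeff i| ≤ (B:ℤ))
    {ω : ℂ} (hω : ‖ω‖ = 1) {σ : ℝ} (hσ : |σ| = 1) (θ : ℝ) (D : ℕ) {x : ℝ} (hx : N * |x| ≤ 1) :
    |(ω * ev P (zpt (θ + σ * x))).re - (Rpol P θ σ ω N D).eval x| ≤
      3 * N * B * (N * |x|) ^ D := by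
  rw [ev_eq_sum hdeg, Rpol_eval, ← Complex.sub_re, ← mul_sub, ← Finset.sum_sub_distrib]
  refine (Complex.abs_re_le_norm _).trans ?_
  rw [norm_mul, hω, one_mul]
  refine (norm_sum_le _ _).trans ?_
  have h1 : ∀ n ∈ range N, ‖(P.coeff n : ℂ) * zpt θ ^ n *
      Complex.exp ((n : ℂ) * σ * x * Complex.I) - (P.coeff n : ℂ) * zpt θ ^ n *
      ∑ m ∈ range D, ((n : ℂ) * σ * x * Complex.I) ^ m / m.factorial‖ ≤
      3 * B * (N * |x|) ^ D := by
    intro n hn
    rw [← mul_sub, norm_mul, norm_mul, norm_pow]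
    have h2 : ‖zpt θ‖ = 1 := Complex.norm_exp_ofReal_mul_I θ
    rw [h2, one_pow, mul_one]
    have h3 : ‖(P.coeff n : ℂ)‖ ≤ B := by
      rw [Complex.norm_intCast]
      exact_mod_cast hc n
    have h4 : ‖(n : ℂ) * σ * x * Complex.I‖ = n * |x| := by
      simp [hσ]
    have h5 := Complex.norm_exp_sub_sum_le_norm_mul_exp ((n : ℂ) * σ * x * Complex.I) D
    rw [h4] at h5
    have hnN : (n:ℝ) ≤ N := by exact_mod_cast (mem_range.mp hn).le
    have h6 : (n:ℝ) * |x| ≤ N * |x| := by gcongr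
    have h7 : Real.exp ((n:ℝ) * |x|) ≤ 3 :=
      (Real.exp_le_exp.mpr (h6.trans hx)).trans (by linarith [Real.exp_one_lt_d9])
    have h8 : ‖Complex.exp ((n : ℂ) * σ * x * Complex.I) -
        ∑ m ∈ range D, ((n : ℂ) * σ * x * Complex.I) ^ m / m.factorial‖ ≤
        (N * |x|) ^ D * 3 := by
      refine h5.trans ?_
      gcongr
    calc _ ≤ (B:ℝ) * ((N * |x|) ^ D * 3) := by gcongr
      _ = _ := by ring
  refine (Finset.sum_le_sum h1).trans ?_
  rw [sum_const, card_range, nsmul_eq_mul]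
  apply le_of_eq
  ring

/-- crossing points of a continuous function -/
lemma crossing {f : ℝ → ℝ} (hf : Continuous f) {y s t t' : ℝ} (hy : 0 < y) (hs : 0 < s)
    (ht : t' < t) (h0 : f 0 ≤ t') (hsm : ∀ x, 0 ≤ x → x ≤ s → f x ≤ t) (hyt : t < f y) :
    ∃ x1 x2, 0 ≤ x2 ∧ x2 < x1 ∧ s ≤ x1 ∧ x1 ≤ y ∧ f x1 = t ∧ f x2 ≤ t' ∧
      (∀ x, 0 ≤ x → x ≤ x1 → f x ≤ t) ∧ (∀ x, x2 < x → x ≤ x1 → t' < f x) := by
  set A : Set ℝ := {x | x ∈ Set.Icc 0 y ∧ t < f x} with hA
  have hyA : y ∈ A := ⟨⟨hy.le, le_rfl⟩, hyt⟩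
  have hAb : BddBelow A := ⟨0, fun a ha => ha.1.1⟩
  set x1 := sInf A with hx1
  have hs1 : s ≤ x1 := by
    apply le_csInf ⟨y, hyA⟩
    intro a ha
    by_contra hlt
    push Not at hlt
    have := hsm a ha.1.1 hlt.le
    linarith [ha.2]
  have h1y : x1 ≤ y := csInf_le hAb hyA
  have hlt : ∀ x, 0 ≤ x → x < x1 → f x ≤ t := by
    intro x hx hxx
    by_contra hc
    push Not at hc
    exact notMem_of_lt_csInf hxx hAb ⟨⟨hx, (hxx.le).trans h1y⟩, hc⟩
  have h1pos : 0 < x1 := hs.trans_le hs1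
  have hle1 : f x1 ≤ t := by
    have hcl : IsClosed {x | f x ≤ t} := isClosed_le hf continuous_const
    have hsub : Set.Ico 0 x1 ⊆ {x | f x ≤ t} := fun x hx => hlt x hx.1 hx.2
    have := closure_minimal hsub hcl
    rw [closure_Ico h1pos.ne] at this
    exact this ⟨h1pos.le, le_rfl⟩
  have hge1 : t ≤ f x1 := by
    have hcl : IsClosed {x | t ≤ f x} := isClosed_le continuous_const hf
    have hsub : A ⊆ {x | t ≤ f x} := fun x hx => hx.2.le
    exact closure_minimal hsub hcl (csInf_mem_closure ⟨y, hyA⟩ hAb)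
  have heq : f x1 = t := le_antisymm hle1 hge1
  have hall : ∀ x, 0 ≤ x → x ≤ x1 → f x ≤ t := by
    intro x hx hxx
    rcases hxx.eq_or_lt with h | h
    · rw [h]; exact hle1
    · exact hlt x hx h
  set A2 : Set ℝ := {x | x ∈ Set.Icc 0 x1 ∧ f x ≤ t'} with hA2
  have hA2c : IsCompact A2 :=
    isCompact_Icc.inter_right (isClosed_le hf continuous_const)
  have h0A : (0:ℝ) ∈ A2 := ⟨⟨le_rfl, h1pos.le⟩, h0⟩
  have hm := hA2c.sSup_mem ⟨0, h0A⟩
  refine ⟨x1, sSup A2, hm.1.1, ?_, hs1, h1y, heq, hm.2, hall, ?_⟩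
  · rcases hm.1.2.eq_or_lt with h | h
    · exfalso
      have := hm.2
      rw [h, heq] at this
      linarith
    · exact h
  · intro x hx hxx
    by_contra hc
    push Not at hc
    have : x ≤ sSup A2 := le_csSup hA2c.bddAbove ⟨⟨hm.1.1.trans hx.le, hxx⟩, hc⟩
    linarith

lemma numeric (B : ℕ) : ∀ᶠ k : ℕ in atTop, 0 < DD k ∧ (8 * k : ℝ) * sc k 0 ≤ 1 ∧
    3 * (8 * k : ℝ) * B * ((8 * k : ℝ) * sc k 0) ^ (DD k) ≤ 1 / 100 * Real.exp (-(k:ℝ)) := by
  filter_upwards [eventually_le_LL 10, eventually_LL_pow_le 100 13,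
    eventually_le_LL (Real.log (2400 * (B + 1))), eventually_ge_atTop 1] with k hL h13 hB hk1
  set L : ℝ := (LL k : ℝ) with hLdef
  have hk0 : (0:ℝ) < k := by exact_mod_cast hk1
  have hLL : 0 < LL k := by
    have : (0:ℝ) < LL k := by rw [← hLdef]; linarith
    exact_mod_cast this
  have hh0 : 0 < hh k := Nat.pow_pos hLL
  have hhr : (hh k : ℝ) = L ^ 12 := by unfold hh; push_cast; rfl
  have hDr : (DD k : ℝ) = 4 * L ^ 12 := by unfold DD; push_cast; rw [hhr]
  set q : ℕ := k / hh k with hq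
  have hqr : (k:ℝ) - L ^ 12 ≤ q * L ^ 12 := by
    have h1 : k < hh k * (q + 1) := Nat.lt_mul_div_succ k hh0
    have h2 : (k:ℝ) < hh k * (q + 1) := by exact_mod_cast h1
    rw [hhr] at h2
    linarith
  have hsc : sc k 0 = Real.exp (-(q * Real.log 2)) := by
    unfold sc
    rw [add_zero, ← hq]
    have : (1 / 2 : ℝ) = Real.exp (-Real.log 2) := by
      rw [Real.exp_neg, Real.exp_log (by norm_num)]; norm_num
    rw [this, ← Real.exp_nat_mul]
    congr 1
    ring
  have hlog2 : 0.69 ≤ Real.log 2 := by linarith [Real.log_two_gt_d9]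
  have hlogk : Real.log k ≤ L := log_le_LL k
  have h8k : (8 * k : ℝ) ≤ Real.exp (3 + L) := by
    rw [Real.exp_add]
    have h1 : (8:ℝ) ≤ Real.exp 3 := by
      have h27 : (2.7:ℝ) ≤ Real.exp 1 := by linarith [Real.exp_one_gt_d9]
      have h28 : Real.exp 3 = (Real.exp 1) ^ 3 := by rw [← Real.exp_nat_mul]; norm_num
      rw [h28]
      calc (8:ℝ) ≤ 2.7 ^ 3 := by norm_num
        _ ≤ _ := by gcongr
    have h2 : (k:ℝ) ≤ Real.exp L := by
      rw [← Real.exp_log hk0]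
      exact Real.exp_le_exp.mpr hlogk
    gcongr
  have hL12 : (1:ℝ) ≤ L ^ 12 := one_le_pow₀ (by linarith)
  have hL13 : L ^ 13 = L ^ 12 * L := by ring
  have hq1 : 100 * L - 1 ≤ q := by
    have h1 : (100 * L - 1) * L ^ 12 ≤ q * L ^ 12 := by nlinarith
    exact le_of_mul_le_mul_right h1 (by linarith)
  have hprod : (8 * k : ℝ) * sc k 0 ≤ Real.exp (3 + L - 0.69 * q) := by
    rw [hsc]
    have : (3 + L - 0.69 * (q:ℝ)) = (3 + L) + (-(0.69 * q)) := by ring
    rw [this, Real.exp_add]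
    have h3 : Real.exp (-(q * Real.log 2)) ≤ Real.exp (-(0.69 * q)) := by
      apply Real.exp_le_exp.mpr
      have : (0.69:ℝ) * q ≤ q * Real.log 2 := by
        rw [mul_comm]
        exact mul_le_mul_of_nonneg_left hlog2 (Nat.cast_nonneg _)
      linarith
    gcongr
  have hsc0 : 0 < sc k 0 := by unfold sc; positivity
  refine ⟨by unfold DD; omega, ?_, ?_⟩
  · refine hprod.trans ?_
    rw [← Real.exp_zero]
    apply Real.exp_le_exp.mpr
    nlinarith
  · have h1 : ((8 * k : ℝ) * sc k 0) ^ (DD k) ≤ Real.exp ((DD k : ℝ) * (3 + L - 0.69 * q)) := by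
      rw [Real.exp_nat_mul]
      gcongr
    have h2 : 3 * (8 * k : ℝ) * B * 100 ≤ Real.exp (2 * L) := by
      have h3 : (2400 * ((B:ℝ) + 1)) ≤ Real.exp L := by
        rw [← Real.exp_log (show (0:ℝ) < 2400 * ((B:ℝ) + 1) by positivity)]
        exact Real.exp_le_exp.mpr hB
      have h4 : (k:ℝ) ≤ Real.exp L := by
        rw [← Real.exp_log hk0]
        exact Real.exp_le_exp.mpr hlogk
      have h5 : Real.exp (2 * L) = Real.exp L * Real.exp L := by rw [← Real.exp_add]; ring_nf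
      rw [h5]
      calc 3 * (8 * k : ℝ) * B * 100 = (2400 * (B:ℝ)) * k := by ring
        _ ≤ (2400 * ((B:ℝ) + 1)) * k := by gcongr; linarith
        _ ≤ _ := by gcongr
    have h6 : Real.exp (2 * L) * Real.exp ((DD k : ℝ) * (3 + L - 0.69 * q)) ≤
        Real.exp (-(k:ℝ)) := by
      rw [← Real.exp_add]
      apply Real.exp_le_exp.mpr
      rw [hDr]
      nlinarith
    have h7 : 0 ≤ ((8 * k : ℝ) * sc k 0) ^ (DD k) := by positivity
    have h8 : (3 * (8 * k : ℝ) * B * 100) * ((8 * k : ℝ) * sc k 0) ^ (DD k) ≤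
        Real.exp (-(k:ℝ)) := by
      refine le_trans ?_ h6
      gcongr
    linarith

lemma continuous_ev_zpt (P : ℤ[X]) (θ σ : ℝ) :
    Continuous (fun x : ℝ => ‖ev P (zpt (θ + σ * x))‖) := by
  unfold ev zpt
  apply Continuous.norm
  exact (Polynomial.continuous_aeval P).comp (by fun_prop)

theorem CR : Stmt_CR := by
  intro B _
  filter_upwards [numeric B, eventually_ge_atTop 5] with k hk hk5
  obtain ⟨hD0, hs1, hs2⟩ := hk
  intro θ hθ j hj
  obtain ⟨P, hP, hsm, hns⟩ := hj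
  unfold Sm at hns
  push Not at hns
  obtain ⟨y, hy, hyt⟩ := hns
  obtain ⟨σ, hσ, hσy⟩ : ∃ σ : ℝ, (σ = 1 ∨ σ = -1) ∧ σ * |y| = y := by
    rcases le_total 0 y with h | h
    · exact ⟨1, Or.inl rfl, by rw [abs_of_nonneg h, one_mul]⟩
    · exact ⟨-1, Or.inr rfl, by rw [abs_of_nonpos h]; ring⟩
  have hσ1 : |σ| = 1 := by rcases hσ with h | h <;> rw [h] <;> norm_num
  set t := Real.exp (-(k:ℝ)) with ht
  set t' := Real.exp (-((k:ℝ) + 1)) with ht'
  have htpos : 0 < t := Real.exp_pos _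
  have htt' : t' ≤ 0.37 * t := by
    have h1 : t' = t * Real.exp (-1) := by
      rw [ht, ht', ← Real.exp_add]; congr 1; ring
    have h2 : Real.exp (-1) ≤ 0.37 := by
      have := Real.exp_neg_one_lt_d9
      linarith
    rw [h1]
    nlinarith
  have hscpos : ∀ i, 0 < sc k i := fun i => by unfold sc; positivity
  have hsucc : sc k (j + 1) = sc k j / 2 := by
    unfold sc
    rw [← add_assoc, pow_succ]
    ring
  have hmono : sc k j ≤ sc k 0 := by
    unfold sc
    apply pow_le_pow_of_le_one (by norm_num) (by norm_num)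
    omega
  set f : ℝ → ℝ := fun x => ‖ev P (zpt (θ + σ * x))‖ with hf
  have hfc : Continuous f := continuous_ev_zpt P θ σ
  have habs : ∀ x : ℝ, |σ * x| = |x| := fun x => by rw [abs_mul, hσ1, one_mul]
  have hsm' : ∀ x, 0 ≤ x → x ≤ sc k (j + 1) → f x ≤ t := by
    intro x hx hx2
    apply hsm
    rw [habs, abs_of_nonneg hx]
    exact hx2
  have h0 : f 0 ≤ t' := by
    have h1 : f 0 ≤ t := hsm' 0 le_rfl (hscpos _).le
    have h2 := hθ P hP
    have h3 : f 0 = ‖ev P (zpt θ)‖ := by rw [hf]; simp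
    rw [← h3] at h2
    by_contra hc
    push Not at hc
    exact h2 ⟨hc, h1⟩
  have hyf : t < f |y| := by
    have : f |y| = ‖ev P (zpt (θ + y))‖ := by rw [hf]; simp only; rw [hσy]
    rw [this]; exact hyt
  have hypos : 0 < |y| := by
    rcases (abs_nonneg y).eq_or_lt with h | h
    · rw [← h] at hyf
      linarith
    · exact h
  obtain ⟨x1, x2, hx2, hx21, hx1s, hx1y, hfx1, hfx2, hall, habove⟩ :=
    crossing hfc hypos (hscpos (j + 1)) (by linarith) h0 hsm' hyf
  have hx1pos : 0 < x1 := (hscpos _).trans_le hx1s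
  have hx1sc : x1 ≤ sc k j := hx1y.trans hy
  -- the length
  set w : ℂ := ev P (zpt (θ + σ * x1)) with hw
  have hwn : ‖w‖ = t := hfx1
  set ω : ℂ := (starRingEnd ℂ) w / (t : ℂ) with hω
  have hωn : ‖ω‖ = 1 := by
    rw [hω, norm_div, RCLike.norm_conj, hwn, Complex.norm_real, Real.norm_of_nonneg htpos.le,
      div_self htpos.ne']
  set R := Rpol P θ σ ω (8 * k) (DD k) with hR
  have happ : ∀ x, 0 ≤ x → x ≤ x1 →
      |(ω * ev P (zpt (θ + σ * x))).re - R.eval x| ≤ 1 / 100 * t := by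
    intro x hx hxx
    have hxsc : x ≤ sc k 0 := hxx.trans (hx1sc.trans hmono)
    have h1 : ((8 * k : ℕ) : ℝ) * |x| ≤ 8 * k * sc k 0 := by
      rw [abs_of_nonneg hx]
      push_cast
      gcongr
    have h2 := approx hP.1 hP.2 hωn hσ1 θ (DD k) (h1.trans hs1)
    refine h2.trans (le_trans ?_ hs2)
    push_cast at h1 ⊢
    gcongr
  have hbd : ∀ x ∈ Set.Icc 0 x1, |R.eval x| ≤ 1.01 * t := by
    intro x hx
    have h1 := happ x hx.1 hx.2
    have h2 : |(ω * ev P (zpt (θ + σ * x))).re| ≤ t := by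
      refine (Complex.abs_re_le_norm _).trans ?_
      rw [norm_mul, hωn, one_mul]
      exact hall x hx.1 hx.2
    rw [abs_le] at h1 h2 ⊢
    constructor <;> linarith [h1.1, h1.2, h2.1, h2.2]
  have hR1 : 0.99 * t ≤ R.eval x1 := by
    have h1 := happ x1 hx1pos.le le_rfl
    have h2 : (ω * ev P (zpt (θ + σ * x1))).re = t := by
      rw [← hw, hω, div_mul_eq_mul_div, mul_comm, Complex.mul_conj, Complex.normSq_eq_norm_sq,
        hwn, ← Complex.ofReal_div, Complex.ofReal_re]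
      field_simp
    rw [h2, abs_le] at h1
    linarith [h1.2]
  have hR2 : R.eval x2 ≤ 0.38 * t := by
    have h1 := happ x2 hx2 hx21.le
    have h2 : |(ω * ev P (zpt (θ + σ * x2))).re| ≤ t' := by
      refine (Complex.abs_re_le_norm _).trans ?_
      rw [norm_mul, hωn, one_mul]
      exact hfx2
    rw [abs_le] at h1 h2
    linarith [h1.1, h2.2]
  have hmk := markov_diff (n := DD k) (P := R) (M := 1.01 * t) (L := x1) (x := x2) (y := x1)
    (by positivity) hx1pos ⟨hx2, hx21.le⟩ ⟨hx1pos.le, le_rfl⟩ (Rpol_degree _ _ _ _ _ _) hbd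
  have hDr : (1:ℝ) ≤ (DD k : ℝ) := by exact_mod_cast hD0
  have hlen : sc k j / (32 * (DD k : ℝ) ^ 2) ≤ x1 - x2 := by
    have h1 : 0.61 * t ≤ 4 * (DD k : ℝ) ^ 2 * (1.01 * t) / x1 * (x1 - x2) := by
      refine le_trans ?_ ((le_abs_self _).trans hmk |>.trans ?_)
      · linarith
      · rw [abs_of_nonneg (by linarith)]
    have h2 : 0.61 * x1 ≤ 4.04 * (DD k : ℝ) ^ 2 * (x1 - x2) := by
      have h3 : 4 * (DD k : ℝ) ^ 2 * (1.01 * t) / x1 * (x1 - x2) =
          (4.04 * (DD k : ℝ) ^ 2 * (x1 - x2)) * t / x1 := by ring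
      rw [h3, le_div_iff₀ hx1pos] at h1
      have h4 : (0.61 * x1) * t ≤ (4.04 * (DD k : ℝ) ^ 2 * (x1 - x2)) * t := by linarith
      exact le_of_mul_le_mul_right h4 htpos
    rw [div_le_iff₀ (by positivity)]
    have h5 : sc k j ≤ 2 * x1 := by rw [hsucc] at hx1s; linarith
    have h6 : 0 ≤ (x1 - x2) * (DD k : ℝ) ^ 2 := mul_nonneg (by linarith) (by positivity)
    nlinarith
  have hnot : ∀ x, x2 < x → x < x1 → θ + σ * x ∉ GS k B := by
    intro x hx hxx hGS
    exact hGS P hP ⟨habove x hx hxx.le, hall x (hx2.trans hx.le) hxx.le⟩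
  rcases hσ with h | h
  · refine ⟨θ + x2, θ + x1, by linarith [(hscpos j)], by linarith, by linarith, ?_⟩
    intro x hx hxx
    have := hnot (x - θ) (by linarith) (by linarith)
    rwa [h, one_mul, add_sub_cancel] at this
  · refine ⟨θ - x1, θ - x2, by linarith, by linarith [(hscpos j)], by linarith, ?_⟩
    intro x hx hxx
    have := hnot (θ - x) (by linarith) (by linarith)
    rwa [h, neg_one_mul, neg_sub, add_sub_cancel] at this

end Pool.Agent.Work.MP_4c4335_nt_helper47
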